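import Pool.Agent.Helper98_PP.StmtsR2b
import Pool.Agent.Helper33_PP.Gal
import Pool.Agent.Helper74_PP.Brt
import Pool.Agent.Helper20_PP.Ibr

/-!
# Squad PP, part R2, module PIB: the irreducible modular characters of a direct product
-/

open scoped BigOperators

noncomputable section

namespace Pool.Agent.PP.H5

open Pool.Agent.PP Pool.Agent.Helper51_AWC Pool.Agent.Helper79_WRA

variable {F L₁ L₂ : Type} [Field F] [Group L₁] [Group L₂]

/-- the outer tensor product of two representations -/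
def prodRep {n m : ℕ} (ρ₁ : L₁ →* Matrix (Fin n) (Fin n) F) (ρ₂ : L₂ →* Matrix (Fin m) (Fin m) F) :
    L₁ × L₂ →* Matrix (Fin (n * m)) (Fin (n * m)) F where
  toFun x := kr (ρ₁ x.1) (ρ₂ x.2)
  map_one' := by
    change kr (ρ₁ 1) (ρ₂ 1) = 1
    rw [map_one, map_one]
    exact H33.kr_one
  map_mul' x y := by
    change kr (ρ₁ (x.1 * y.1)) (ρ₂ (x.2 * y.2)) = _
    rw [map_mul, map_mul]
    exact H33.kr_mul _ _ _ _

theorem prodRep_irr {n m : ℕ} {ρ₁ : L₁ →* Matrix (Fin n) (Fin n) F}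
    {ρ₂ : L₂ →* Matrix (Fin m) (Fin m) F} (h₁ : IsIrr ρ₁) (h₂ : IsIrr ρ₂) :
    IsIrr (prodRep ρ₁ ρ₂) := by
  refine ⟨Nat.mul_pos h₁.1 h₂.1, H33.top_of_kr _ fun A B => ?_⟩
  have hA : A ∈ Submodule.span F (Set.range ρ₁) := by
    rw [h₁.2]; trivial
  have hB : B ∈ Submodule.span F (Set.range ρ₂) := by
    rw [h₂.2]; trivial
  induction hA using Submodule.span_induction with
  | mem A hA =>
    obtain ⟨x, rfl⟩ := hA
    induction hB using Submodule.span_induction with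
    | mem B hB =>
      obtain ⟨y, rfl⟩ := hB
      exact Submodule.subset_span ⟨(x, y), rfl⟩
    | zero =>
      rw [H33.kr_zero_right]
      exact Submodule.zero_mem _
    | add B B' _ _ hB hB' =>
      rw [H33.kr_add_right]
      exact Submodule.add_mem _ hB hB'
    | smul c B _ hB =>
      rw [H33.kr_smul_right]
      exact Submodule.smul_mem _ _ hB
  | zero =>
    rw [H33.kr_zero_left]
    exact Submodule.zero_mem _
  | add A A' _ _ hA hA' =>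
    rw [H33.kr_add_left]
    exact Submodule.add_mem _ hA hA'
  | smul c A _ hA =>
    rw [H33.kr_smul_left]
    exact Submodule.smul_mem _ _ hA

theorem prod_mem {φ₁ : L₁ → F} {φ₂ : L₂ → F} (h₁ : φ₁ ∈ IBr F L₁) (h₂ : φ₂ ∈ IBr F L₂) :
    (fun x : L₁ × L₂ => φ₁ x.1 * φ₂ x.2) ∈ IBr F (L₁ × L₂) := by
  obtain ⟨n, ρ₁, hρ₁, rfl⟩ := h₁
  obtain ⟨m, ρ₂, hρ₂, rfl⟩ := h₂
  refine ⟨n * m, prodRep ρ₁ ρ₂, prodRep_irr hρ₁ hρ₂, ?_⟩
  funext x
  exact (H33.kr_trace _ _).symm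

theorem left_mem_TT {ℓ : ℕ} {φ : L₁ × L₂ → F} (h : φ ∈ TT F (L₁ × L₂) ℓ) (x : L₁) :
    (fun y => φ (x, y)) ∈ TT F L₂ ℓ := by
  obtain ⟨hc, hr⟩ := h
  refine ⟨fun y z => ?_, fun y z hyz hz => ?_⟩
  · have := hc (x, y) (1, z)
    simpa using this
  · obtain ⟨n, hn⟩ := hz
    have := hr (x, y) (1, z) (by
      rw [Commute, SemiconjBy, Prod.mk_mul_mk, Prod.mk_mul_mk, hyz.eq, one_mul, mul_one])
      ⟨n, by rw [Prod.pow_mk, hn, one_pow]; rfl⟩
    simpa using this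

theorem right_eq {ℓ : ℕ} {φ : L₁ × L₂ → F} (h : φ ∈ TT F (L₁ × L₂) ℓ) (x z : L₁) :
    (fun y => φ (z * x * z⁻¹, y)) = fun y => φ (x, y) := by
  funext y
  have := h.1 (x, y) (z, 1)
  simpa using this

theorem right_eq' {ℓ : ℕ} {φ : L₁ × L₂ → F} (h : φ ∈ TT F (L₁ × L₂) ℓ) (x z : L₁)
    (hxz : Commute x z) (hz : ∃ n : ℕ, z ^ ℓ ^ n = 1) :
    (fun y => φ (x * z, y)) = fun y => φ (x, y) := by
  funext y
  obtain ⟨n, hn⟩ := hz
  have := h.2 (x, y) (z, 1) (by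
    rw [Commute, SemiconjBy, Prod.mk_mul_mk, Prod.mk_mul_mk, hxz.eq, one_mul, mul_one])
    ⟨n, by rw [Prod.pow_mk, hn, one_pow]; rfl⟩
  simpa using this

theorem mem_span_prod {ℓ : ℕ} (hF : GoodF ℓ F) [Finite L₁] [Finite L₂] {φ : L₁ × L₂ → F}
    (h : φ ∈ TT F (L₁ × L₂) ℓ) :
    φ ∈ Submodule.span F {f : L₁ × L₂ → F | ∃ φ₁ ∈ IBr F L₁, ∃ φ₂ ∈ IBr F L₂,
      f = fun x => φ₁ x.1 * φ₂ x.2} := by
  classical
  have hb := H74.brt H20.ibf H20.ibc H20.ibj H20.ibn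
  have h1 : Submodule.span F (IBr F L₁) = TT F L₁ ℓ := hb ℓ F hF L₁
  have h2 : Submodule.span F (IBr F L₂) = TT F L₂ ℓ := hb ℓ F hF L₂
  obtain ⟨hfin, hli⟩ := H20.ibf ℓ F hF L₂
  have : Fintype (IBr F L₂) := hfin.fintype
  -- the coefficients
  have hex : ∀ g : TT F L₂ ℓ, ∃ c : IBr F L₂ → F, ∑ ψ, c ψ • (ψ : L₂ → F) = g := by
    intro g
    have hg : (g : L₂ → F) ∈ Submodule.span F (Set.range (fun f : IBr F L₂ => (f : L₂ → F))) := by
      rw [Subtype.range_coe, h2]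
      exact g.2
    exact (Submodule.mem_span_range_iff_exists_fun F).1 hg
  choose c hc using hex
  set C : IBr F L₂ → L₁ → F := fun ψ x => c ⟨fun y => φ (x, y), left_mem_TT h x⟩ ψ with hC
  have hCm : ∀ ψ, C ψ ∈ TT F L₁ ℓ := by
    intro ψ
    refine ⟨fun x z => ?_, fun x z hxz hz => ?_⟩
    · change c ⟨_, _⟩ ψ = c ⟨_, _⟩ ψ
      congr 2
      exact right_eq h x z
    · change c ⟨_, _⟩ ψ = c ⟨_, _⟩ ψ
      congr 2
      exact right_eq' h x z hxz hz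
  have hφ : φ = ∑ ψ : IBr F L₂, fun x : L₁ × L₂ => C ψ x.1 * (ψ : L₂ → F) x.2 := by
    funext x
    have := congrFun (hc ⟨fun y => φ (x.1, y), left_mem_TT h x.1⟩) x.2
    rw [Finset.sum_apply] at this ⊢
    simp only [Pi.smul_apply, smul_eq_mul] at this
    exact this.symm
  rw [hφ]
  refine Submodule.sum_mem _ fun ψ _ => ?_
  have hm : C ψ ∈ Submodule.span F (IBr F L₁) := by
    rw [h1]; exact hCm ψ
  clear_value C
  generalize C ψ = g at hm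
  induction hm using Submodule.span_induction with
  | mem g hg => exact Submodule.subset_span ⟨g, hg, ψ, ψ.2, rfl⟩
  | zero =>
    have : (fun x : L₁ × L₂ => (0 : L₁ → F) x.1 * (ψ : L₂ → F) x.2) = 0 := by
      funext x; simp
    rw [this]
    exact Submodule.zero_mem _
  | add a b _ _ ha hb =>
    have : (fun x : L₁ × L₂ => (a + b) x.1 * (ψ : L₂ → F) x.2) =
        (fun x : L₁ × L₂ => a x.1 * (ψ : L₂ → F) x.2) +
        fun x : L₁ × L₂ => b x.1 * (ψ : L₂ → F) x.2 := by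
      funext x; simp [add_mul]
    rw [this]
    exact Submodule.add_mem _ ha hb
  | smul r a _ ha =>
    have : (fun x : L₁ × L₂ => (r • a) x.1 * (ψ : L₂ → F) x.2) =
        r • fun x : L₁ × L₂ => a x.1 * (ψ : L₂ → F) x.2 := by
      funext x; simp [mul_assoc]
    rw [this]
    exact Submodule.smul_mem _ _ ha

theorem eq_of_smul {ℓ : ℕ} (hF : GoodF ℓ F) [Finite L₁] {φ ψ : L₁ → F} (h : φ ∈ IBr F L₁)
    (h' : ψ ∈ IBr F L₁) (r : F) (hr : φ = r • ψ) : φ = ψ := by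
  by_contra hne
  have hli := (H20.ibf ℓ F hF L₁).2
  have hn : (⟨φ, h⟩ : IBr F L₁) ∉ ({⟨ψ, h'⟩} : Set (IBr F L₁)) := fun hh =>
    hne (congrArg Subtype.val hh)
  apply hli.notMem_span_image hn
  rw [Set.image_singleton]
  exact Submodule.mem_span_singleton.2 ⟨r, hr.symm⟩

theorem pib : PibStmt := by
  intro ℓ F _ hF L₁ L₂ _ _ _ _
  have hli := (H20.ibf ℓ F hF (L₁ × L₂)).2
  have h0 : ∀ (H : Type) [Group H] [Finite H], ∀ φ ∈ IBr F H, ∃ y, φ y ≠ 0 := by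
    intro H _ _ φ hφ
    by_contra hcon
    push Not at hcon
    have : φ = 0 := funext hcon
    exact (H20.ibf ℓ F hF H).2.ne_zero ⟨φ, hφ⟩ this
  refine ⟨fun n m ρ₁ ρ₂ h₁ h₂ => ⟨prodRep ρ₁ ρ₂, prodRep_irr h₁ h₂, fun x => rfl⟩,
    fun φ₁ h₁ φ₂ h₂ => prod_mem h₁ h₂, ?_, ?_⟩
  · intro φ hφ
    by_contra hcon
    have hb := H74.brt H20.ibf H20.ibc H20.ibj H20.ibn
    have hT : φ ∈ TT F (L₁ × L₂) ℓ := by
      rw [← hb ℓ F hF (L₁ × L₂)]
      exact Submodule.subset_span hφ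
    have hs := mem_span_prod hF hT
    set P : Set (IBr F (L₁ × L₂)) := {f | ∃ φ₁ ∈ IBr F L₁, ∃ φ₂ ∈ IBr F L₂,
      (f : L₁ × L₂ → F) = fun x => φ₁ x.1 * φ₂ x.2} with hP
    have hn : (⟨φ, hφ⟩ : IBr F (L₁ × L₂)) ∉ P := fun hh => hcon hh
    apply hli.notMem_span_image hn
    refine Submodule.span_mono ?_ hs
    rintro f ⟨φ₁, h₁, φ₂, h₂, rfl⟩
    exact ⟨⟨_, prod_mem h₁ h₂⟩, ⟨φ₁, h₁, φ₂, h₂, rfl⟩, rfl⟩
  · intro φ₁ h₁ φ₂ h₂ ψ₁ h₁' ψ₂ h₂' h
    obtain ⟨x, hx⟩ := h0 L₁ φ₁ h₁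
    obtain ⟨y, hy⟩ := h0 L₂ φ₂ h₂
    constructor
    · apply eq_of_smul hF h₁ h₁' (ψ₂ y / φ₂ y)
      funext t
      have := h t y
      rw [Pi.smul_apply, smul_eq_mul]
      field_simp
      linear_combination this
    · apply eq_of_smul hF h₂ h₂' (ψ₁ x / φ₁ x)
      funext t
      have := h x t
      rw [Pi.smul_apply, smul_eq_mul]
      field_simp
      linear_combination this

end Pool.Agent.PP.H5
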